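import Pool.Agent.K4H24.EK.Form

/-! The fundamental form on `ℂ³` is closed. -/

set_option autoImplicit false

open scoped Manifold ContDiff Topology ENNReal
open Set

noncomputable section

namespace Pool.Agent.K4H24.EK

/-- the derivative of `du` -/
def dd (v : C3) : C3 →L[ℝ] ℝ := -(xr v • yi) - yi v • xr

lemma dd_apply (v t : C3) : dd v t = -(xr v * yi t) - yi v * xr t := rfl

lemma hasFDerivAt_du (v p : C3) : HasFDerivAt (fun p => du p v) (dd v) p := by
  have h1 : (fun p => du p v) = fun p => (-(xr v • yi) - yi v • xr) p + zi v := by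
    funext p
    rw [du_apply]
    show _ = -(xr v * yi p) - yi v * xr p + zi v
    ring
  rw [h1]
  exact (ContinuousLinearMap.hasFDerivAt _).add_const _

lemma hasDerivAt_S (t : ℝ) : HasDerivAt (fun t : ℝ => 1 / 2 * (1 + t ^ 2)⁻¹)
    (-t * ((1 + t ^ 2)⁻¹) ^ 2) t := by
  have h0 : (1 + t ^ 2) ≠ 0 := by positivity
  have h1 : HasDerivAt (fun t : ℝ => 1 + t ^ 2) (2 * t) t := by
    have := (hasDerivAt_pow 2 t).const_add 1
    simpa using this
  have h2 := (h1.inv h0).const_mul (1 / 2)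
  refine h2.congr_deriv ?_
  field_simp

lemma hasFDerivAt_W (v w p : C3) : HasFDerivAt (fun p => Bf p (JJ v) w)
    (((1 / 2 * (1 + uf p ^ 2)⁻¹) • ((du p (JJ v) • dd w + du p w • dd (JJ v)) +
      (du p (JJ (JJ v)) • dd (JJ w) + du p (JJ w) • dd (JJ (JJ v)))) +
      (du p (JJ v) * du p w + du p (JJ (JJ v)) * du p (JJ w)) •
        ((-uf p * ((1 + uf p ^ 2)⁻¹) ^ 2) • du p)) +
      (Qf (JJ v) w) • ((1 / (1 + uf p ^ 2)) • du p)) p := by
  have h1 : (fun p => Bf p (JJ v) w) = fun p => 1 / 2 * (1 + uf p ^ 2)⁻¹ *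
    (du p (JJ v) * du p w + du p (JJ (JJ v)) * du p (JJ w)) + Real.arctan (uf p) * Qf (JJ v) w +
      Rf (JJ v) w := by
    funext p
    exact Bf_apply p _ _
  rw [h1]
  have h2 : HasFDerivAt (fun p => 1 / 2 * (1 + uf p ^ 2)⁻¹)
      ((-uf p * ((1 + uf p ^ 2)⁻¹) ^ 2) • du p) p :=
    (hasDerivAt_S (uf p)).comp_hasFDerivAt p (hasFDerivAt_uf p)
  have h3 : HasFDerivAt (fun p => Real.arctan (uf p)) ((1 / (1 + uf p ^ 2)) • du p) p :=
    (Real.hasDerivAt_arctan (uf p)).comp_hasFDerivAt p (hasFDerivAt_uf p)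
  have h4 := ((hasFDerivAt_du (JJ v) p).mul (hasFDerivAt_du w p)).add
    ((hasFDerivAt_du (JJ (JJ v)) p).mul (hasFDerivAt_du (JJ w) p))
  have h5 := ((h2.mul h4).add (h3.mul_const (Qf (JJ v) w))).add_const (Rf (JJ v) w)
  exact h5

lemma closed_Bf (p u v w : C3) : fderiv ℝ (fun p => Bf p (JJ v) w) p u +
    fderiv ℝ (fun p => Bf p (JJ w) u) p v + fderiv ℝ (fun p => Bf p (JJ u) v) p w = 0 := by
  rw [(hasFDerivAt_W v w p).fderiv, (hasFDerivAt_W w u p).fderiv, (hasFDerivAt_W u v p).fderiv]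
  simp only [ContinuousLinearMap.add_apply, ContinuousLinearMap.smul_apply, smul_eq_mul, dd_apply,
    du_apply, Qf_apply, xr_J, xi_J, yr_J, yi_J, zi_J, zr_J, one_div]
  ring

end Pool.Agent.K4H24.EK
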