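import Pool.Agent.K4H24.EK.Kaehler
import Pool.Agent.Y503.HC.Len

/-! The metric on the quotient is complete. -/

set_option autoImplicit false

open scoped Manifold ContDiff Topology ENNReal
open Set Bundle Filter Manifold MeasureTheory

noncomputable section

namespace Pool.Agent.K4H24.EK

open Pool.Agent.Y503.HC

lemma near (x : XX) {c : ℝ≥0∞} (hc : 0 < c) : ∀ᶠ y in 𝓝 x, dist gX x y < c := by
  let _ : RiemannianBundle (fun x : XX => TangentSpace 𝓘(ℝ, C3) x) := ⟨gX.toRiemannianMetric⟩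
  have : IsContinuousRiemannianBundle C3 (fun x : XX => TangentSpace 𝓘(ℝ, C3) x) :=
    ⟨⟨gX.inner, gX.contMDiff.continuous, fun _ _ _ => rfl⟩⟩
  exact eventually_riemannianEDist_lt 𝓘(ℝ, C3) x hc

/-- the function on the quotient given by an invariant function -/
def desc (φ : C3 → ℝ) (q : XX) : ℝ := φ (Function.surjInv hsurj q)

/-- the derivative of a descended function -/
def dDesc (φ : C3 → ℝ) (x : XX) : C3 →L[ℝ] ℝ := mfderiv 𝓘(ℝ, C3) 𝓘(ℝ, ℝ) (desc φ) x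

section Desc

variable {φ : C3 → ℝ} (hφ : ContDiff ℝ ∞ φ) (hinv : ∀ (g : Hz) p, φ (g • p) = φ p)

include hinv in
lemma desc_pr (p : C3) : desc φ (pr p) = φ p := by
  unfold desc
  obtain ⟨g, hg⟩ := pr_eq.1 (Function.surjInv_eq hsurj (pr p))
  conv_rhs => rw [← hg, hinv]

include hφ hinv in
lemma desc_smooth : ContMDiff 𝓘(ℝ, C3) 𝓘(ℝ, ℝ) ∞ (desc φ) := by
  intro n
  obtain ⟨a, rfl⟩ := hsurj n
  have hs : pr a ∈ (hlh.localInverseAt a).source := hlh.apply_self_mem_localInverseAt_source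
  have h1 : ContMDiffAt 𝓘(ℝ, C3) 𝓘(ℝ, C3) ∞ (hlh.localInverseAt a) (pr a) :=
    inv_contMDiffAt hlh gdeck.deck chart_ex' a hs
  have h2 : ContMDiffAt 𝓘(ℝ, C3) 𝓘(ℝ, ℝ) ∞ φ (hlh.localInverseAt a (pr a)) :=
    hφ.contMDiff.contMDiffAt
  have h3 := ContMDiffAt.comp (g := φ) (f := hlh.localInverseAt a) _ h2 h1
  refine h3.congr_of_eventuallyEq ?_
  filter_upwards [(hlh.localInverseAt a).open_source.mem_nhds hs] with m hm
  have h4 := hlh.apply_localInverseAt_of_mem hm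
  show desc φ m = φ (hlh.localInverseAt a m)
  conv_lhs => rw [← h4]
  exact desc_pr hinv _

include hφ hinv in
lemma desc_bound {C : ℝ} (hC : 0 ≤ C) (hb : ∀ p v, (fderiv ℝ φ p v) ^ 2 ≤ C ^ 2 * Bf p v v)
    (x : XX) (v : C3) :
    |dDesc φ x v| ≤ C * nrm gX x v := by
  obtain ⟨p, rfl⟩ := hsurj x
  obtain ⟨w, hw⟩ := dpr_surj p v
  subst hw
  have hd1 : MDifferentiableAt 𝓘(ℝ, C3) 𝓘(ℝ, ℝ) (desc φ) (pr p) :=
    (desc_smooth hφ hinv (pr p)).mdifferentiableAt (by simp)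
  have hd2 : MDifferentiableAt 𝓘(ℝ, C3) 𝓘(ℝ, C3) pr p :=
    (f_contMDiffAt hlh gdeck.deck chart_ex' p).mdifferentiableAt (by simp)
  have h1 := mfderiv_comp p hd1 hd2
  have h2 : desc φ ∘ pr = φ := funext fun q => desc_pr hinv q
  have h3 : (mfderiv 𝓘(ℝ, C3) 𝓘(ℝ, ℝ) (desc φ ∘ pr) p : C3 →L[ℝ] ℝ) w =
      dDesc φ (pr p) (dpr p w) :=
    congrArg (fun L : C3 →L[ℝ] ℝ => L w) h1
  have h4 : ∀ f : C3 → ℝ, f = φ →
      (mfderiv 𝓘(ℝ, C3) 𝓘(ℝ, ℝ) f p : C3 →L[ℝ] ℝ) w = fderiv ℝ φ p w := by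
    rintro _ rfl
    rw [mfderiv_eq_fderiv]
    rfl
  rw [h4 _ h2] at h3
  rw [← h3]
  have h5 : nrm gX (pr p) (dpr p w) = Real.sqrt (Bf p w w) :=
    congrArg Real.sqrt (gX_pr p w w)
  have h6 : |fderiv ℝ φ p w| ≤ C * Real.sqrt (Bf p w w) := by
    rw [← Real.sqrt_sq_eq_abs, ← Real.sqrt_sq hC, ← Real.sqrt_mul (sq_nonneg C)]
    exact Real.sqrt_le_sqrt (hb p w)
  rw [← h5] at h6
  exact h6

include hφ hinv in
lemma desc_path {C : ℝ} (hC : 0 ≤ C) (hb : ∀ p v, (fderiv ℝ φ p v) ^ 2 ≤ C ^ 2 * Bf p v v)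
    {c : ℝ → XX} (hc : ContMDiffOn 𝓘(ℝ, ℝ) 𝓘(ℝ, C3) 1 c (Icc 0 1)) :
    ‖desc φ (c 1) - desc φ (c 0)‖ₑ ≤ ENNReal.ofReal C * len gX c 0 1 := by
  have h1 : ContMDiffOn 𝓘(ℝ, ℝ) 𝓘(ℝ, ℝ) 1 (desc φ ∘ c) (Icc 0 1) :=
    ((desc_smooth hφ hinv).of_le (by simp)).comp_contMDiffOn hc
  have h2 : ContDiffOn ℝ 1 (desc φ ∘ c) (Icc 0 1) := contMDiffOn_iff_contDiffOn.1 h1
  refine (enorm_sub_le_lintegral_derivWithin_Icc_of_contDiffOn_Icc h2 zero_le_one).trans ?_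
  unfold len
  rw [← lintegral_const_mul' _ _ ENNReal.ofReal_ne_top]
  apply setLIntegral_mono' measurableSet_Icc
  intro t ht
  have h7 : mfderivWithin 𝓘(ℝ, ℝ) 𝓘(ℝ, ℝ) (desc φ ∘ c) (Icc 0 1) t =
      (mfderiv 𝓘(ℝ, C3) 𝓘(ℝ, ℝ) (desc φ) (c t)).comp
        (mfderivWithin 𝓘(ℝ, ℝ) 𝓘(ℝ, C3) c (Icc 0 1) t) := by
    apply mfderiv_comp_mfderivWithin
    · exact (desc_smooth hφ hinv (c t)).mdifferentiableAt (by simp)
    · exact (hc t ht).mdifferentiableWithinAt (by simp)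
    · rw [uniqueMDiffWithinAt_iff_uniqueDiffWithinAt]
      exact uniqueDiffOn_Icc zero_lt_one t ht
  have h8 : derivWithin (desc φ ∘ c) (Icc 0 1) t =
      dDesc φ (c t)
        ((mfderivWithin 𝓘(ℝ, ℝ) 𝓘(ℝ, C3) c (Icc 0 1) t : ℝ →L[ℝ] C3) 1) := by
    rw [← fderivWithin_derivWithin, ← mfderivWithin_eq_fderivWithin]
    exact congrArg (fun L : ℝ →L[ℝ] ℝ => L 1) h7
  rw [h8, ← ENNReal.ofReal_mul hC, Real.enorm_eq_ofReal_abs]
  exact ENNReal.ofReal_le_ofReal (desc_bound hφ hinv hC hb _ _)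

include hφ hinv in
lemma desc_close {C : ℝ} (hC : 0 ≤ C) (hb : ∀ p v, (fderiv ℝ φ p v) ^ 2 ≤ C ^ 2 * Bf p v v)
    {x y : XX} (h : dist gX x y < 1) : |desc φ y - desc φ x| ≤ C := by
  obtain ⟨c, h0, h1, h2, h3⟩ := exists_path gX h
  have h4 := desc_path hφ hinv hC hb h2
  rw [h0, h1, Real.enorm_eq_ofReal_abs] at h4
  have h5 : ENNReal.ofReal |desc φ y - desc φ x| ≤ ENNReal.ofReal C := by
    refine h4.trans ?_
    calc _ ≤ ENNReal.ofReal C * 1 := by gcongr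
      _ = _ := mul_one _
  exact (ENNReal.ofReal_le_ofReal_iff hC).1 h5

end Desc

/-! The three exhausting functions. -/

lemma xi_inv (g : Hz) (p : C3) : xi (g • p) = xi p := by
  rw [xi_apply, xi_apply, Hz.xL_smul]; simp

lemma yi_inv (g : Hz) (p : C3) : yi (g • p) = yi p := by
  rw [yi_apply, yi_apply, Hz.yL_smul]; simp

/-- the third function -/
def wf (p : C3) : ℝ := Real.arsinh (uf p)

lemma wf_inv (g : Hz) (p : C3) : wf (g • p) = wf p := by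
  unfold wf; rw [uf_smul]

lemma wf_smooth : ContDiff ℝ ∞ wf := Real.contDiff_arsinh.comp contDiff_uf

lemma low0 (p v : C3) : 0 ≤ 1 / 2 * (1 + uf p ^ 2)⁻¹ * (du p v ^ 2 + du p (JJ v) ^ 2) := by
  have h0 : 0 < (1 + uf p ^ 2)⁻¹ := by positivity
  positivity

lemma xi_bound (p v : C3) : (fderiv ℝ xi p v) ^ 2 ≤ 1 ^ 2 * Bf p v v := by
  rw [xi.fderiv]
  have h := Bf_lower p v
  have h1 := low0 p v
  nlinarith [sq_nonneg (xr v), sq_nonneg (yr v), sq_nonneg (yi v)]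

lemma yi_bound (p v : C3) : (fderiv ℝ yi p v) ^ 2 ≤ 1 ^ 2 * Bf p v v := by
  rw [yi.fderiv]
  have h := Bf_lower p v
  have h1 := low0 p v
  nlinarith [sq_nonneg (xr v), sq_nonneg (yr v), sq_nonneg (xi v)]

lemma wf_bound (p v : C3) : (fderiv ℝ wf p v) ^ 2 ≤ 2 ^ 2 * Bf p v v := by
  have h0 : HasFDerivAt wf ((√(1 + uf p ^ 2))⁻¹ • du p) p :=
    (Real.hasDerivAt_arsinh (uf p)).comp_hasFDerivAt p (hasFDerivAt_uf p)
  rw [h0.fderiv]
  have h := Bf_lower p v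
  have h2 : 0 < (1 + uf p ^ 2) := by positivity
  have h3 : 0 < (1 + uf p ^ 2)⁻¹ := by positivity
  have h4 : (((√(1 + uf p ^ 2))⁻¹ • du p : C3 →L[ℝ] ℝ) v) ^ 2 = (1 + uf p ^ 2)⁻¹ * du p v ^ 2 := by
    show ((√(1 + uf p ^ 2))⁻¹ * du p v) ^ 2 = _
    rw [mul_pow, inv_pow, Real.sq_sqrt h2.le]
  rw [h4]
  have h5 : 0 ≤ (1 + uf p ^ 2)⁻¹ * du p v ^ 2 := by positivity
  have h6 : 0 ≤ (1 + uf p ^ 2)⁻¹ * du p (JJ v) ^ 2 := by positivity
  nlinarith [sq_nonneg (xr v), sq_nonneg (yr v), sq_nonneg (xi v), sq_nonneg (yi v)]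

/-- normalisation of the real parts -/
lemma exists_normal (q : XX) : ∃ p : C3, pr p = q ∧ |xr p| ≤ 1 ∧ |yr p| ≤ 1 ∧ |zr p| ≤ 1 := by
  obtain ⟨p0, rfl⟩ := hsurj q
  set a : ℤ := -⌊xr p0⌋ with ha
  set b : ℤ := -⌊yr p0⌋ with hb
  set c : ℤ := -⌊zr p0 + a * yr p0⌋ with hc
  refine ⟨(⟨a, b, c⟩ : Hz) • p0, pr_smul _ _, ?_, ?_, ?_⟩
  · have e : xr ((⟨a, b, c⟩ : Hz) • p0) = xr p0 + a := by
      rw [xr_apply, Hz.xL_smul]; simp [xr_apply]
    have e1 : (a : ℝ) = -(⌊xr p0⌋ : ℝ) := by rw [ha]; push_cast; ring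
    rw [e, e1, abs_le]
    have h1 := Int.floor_le (xr p0)
    have h2 := Int.lt_floor_add_one (xr p0)
    constructor <;> linarith
  · have e : yr ((⟨a, b, c⟩ : Hz) • p0) = yr p0 + b := by
      rw [yr_apply, Hz.yL_smul]; simp [yr_apply]
    have e1 : (b : ℝ) = -(⌊yr p0⌋ : ℝ) := by rw [hb]; push_cast; ring
    rw [e, e1, abs_le]
    have h1 := Int.floor_le (yr p0)
    have h2 := Int.lt_floor_add_one (yr p0)
    constructor <;> linarith
  · have e : zr ((⟨a, b, c⟩ : Hz) • p0) = zr p0 + a * yr p0 + c := by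
      rw [zr_apply, Hz.zL_smul]; simp [zr_apply, yr_apply]
    have e1 : (c : ℝ) = -(⌊zr p0 + a * yr p0⌋ : ℝ) := by rw [hc]; push_cast; ring
    rw [e, e1, abs_le]
    have h1 := Int.floor_le (zr p0 + a * yr p0)
    have h2 := Int.lt_floor_add_one (zr p0 + a * yr p0)
    constructor <;> linarith

lemma norm_bound {p : C3} {A B C : ℝ} (h1 : |xr p| ≤ 1) (h2 : |yr p| ≤ 1) (h3 : |zr p| ≤ 1)
    (h4 : |xi p| ≤ A) (h5 : |yi p| ≤ B) (h6 : |wf p| ≤ C) :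
    ‖p‖ ≤ 1 + A + B + Real.sinh C := by
  have hA : 0 ≤ A := (abs_nonneg _).trans h4
  have hB : 0 ≤ B := (abs_nonneg _).trans h5
  have hC : 0 ≤ C := (abs_nonneg _).trans h6
  have hS : 0 ≤ Real.sinh C := Real.sinh_nonneg_iff.2 hC
  have hu : |uf p| ≤ Real.sinh C := by
    have e : uf p = Real.sinh (wf p) := (Real.sinh_arsinh _).symm
    rw [e]
    obtain ⟨l1, l2⟩ := abs_le.1 h6
    rw [abs_le, ← Real.sinh_neg]
    exact ⟨Real.sinh_le_sinh.2 l1, Real.sinh_le_sinh.2 l2⟩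
  have hz : |zi p| ≤ Real.sinh C + B := by
    have e : zi p = uf p + xr p * yi p := by unfold uf; ring
    rw [e]
    calc _ ≤ |uf p| + |xr p * yi p| := abs_add_le _ _
      _ ≤ Real.sinh C + B := by
        apply add_le_add hu
        rw [abs_mul]
        calc _ ≤ 1 * B := mul_le_mul h1 h5 (abs_nonneg _) zero_le_one
          _ = B := one_mul B
  apply norm_le_of
  · refine (Complex.norm_le_abs_re_add_abs_im _).trans ?_
    have : |(xL p).re| + |(xL p).im| ≤ 1 + A := add_le_add h1 h4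
    linarith
  · refine (Complex.norm_le_abs_re_add_abs_im _).trans ?_
    have : |(yL p).re| + |(yL p).im| ≤ 1 + B := add_le_add h2 h5
    linarith
  · refine (Complex.norm_le_abs_re_add_abs_im _).trans ?_
    have : |(zL p).re| + |(zL p).im| ≤ 1 + (Real.sinh C + B) := add_le_add h3 hz
    linarith

theorem isComplete_gX : IsComplete (E := C3) (X := XX) gX := by
  intro s hs
  obtain ⟨N, hN⟩ := hs 1 one_pos
  choose p hp1 hp2 hp3 hp4 using fun n => exists_normal (s (n + N))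
  set A : ℝ := |desc xi (s N)| + 1 with hA
  set B : ℝ := |desc yi (s N)| + 1 with hB
  set C : ℝ := |desc wf (s N)| + 2 with hC
  have hbd : ∀ n, ‖p n‖ ≤ 1 + A + B + Real.sinh C := by
    intro n
    have hd : dist gX (s N) (s (n + N)) < 1 := hN N le_rfl (n + N) (Nat.le_add_left _ _)
    have e1 := desc_close xi.contDiff xi_inv zero_le_one xi_bound hd
    have e2 := desc_close yi.contDiff yi_inv zero_le_one yi_bound hd
    have e3 := desc_close wf_smooth wf_inv zero_le_two wf_bound hd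
    rw [← hp1 n, desc_pr xi_inv] at e1
    rw [← hp1 n, desc_pr yi_inv] at e2
    rw [← hp1 n, desc_pr wf_inv] at e3
    apply norm_bound (hp2 n) (hp3 n) (hp4 n)
    · have := abs_sub_abs_le_abs_sub (xi (p n)) (desc xi (s N))
      linarith
    · have := abs_sub_abs_le_abs_sub (yi (p n)) (desc yi (s N))
      linarith
    · have := abs_sub_abs_le_abs_sub (wf (p n)) (desc wf (s N))
      linarith
  have hmem : ∀ n, p n ∈ Metric.closedBall (0 : C3) (1 + A + B + Real.sinh C) := by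
    intro n
    rw [mem_closedBall_zero_iff]
    exact hbd n
  obtain ⟨a, -, φ, hφ, hlim⟩ := tendsto_subseq_of_bounded Metric.isBounded_closedBall hmem
  have hlim2 : Tendsto (fun n => s (φ n + N)) atTop (𝓝 (pr a)) := by
    have h1 : Tendsto (pr ∘ (p ∘ φ)) atTop (𝓝 (pr a)) :=
      (hlh.continuous.tendsto a).comp hlim
    have h2 : pr ∘ (p ∘ φ) = fun n => s (φ n + N) := by
      funext n
      exact hp1 (φ n)
    rwa [h2] at h1
  refine ⟨pr a, ?_⟩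
  rw [ENNReal.tendsto_nhds_zero]
  intro ε hε
  have hε2 : 0 < ε / 2 := ENNReal.half_pos hε.ne'
  obtain ⟨M, hM⟩ := hs (ε / 2) hε2
  obtain ⟨n, hn1, hn2⟩ := ((hlim2.eventually (near (pr a) hε2)).and
    (eventually_ge_atTop M)).exists
  have hn3 : M ≤ φ n + N := hn2.trans ((hφ.id_le n).trans (Nat.le_add_right _ _))
  filter_upwards [eventually_ge_atTop M] with m hm
  calc dist gX (s m) (pr a) ≤ dist gX (s m) (s (φ n + N)) + dist gX (s (φ n + N)) (pr a) :=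
        dist_triangle _ _ _ _
    _ ≤ ε / 2 + ε / 2 := by
        apply add_le_add (hM m hm _ hn3).le
        rw [Pool.Agent.Y503.HC.dist_comm]
        exact hn1.le
    _ = ε := ENNReal.add_halves ε

end Pool.Agent.K4H24.EK
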