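import Pool.Agent.Y503.HC.Defs

/-!
# Complete Kähler manifolds, elliptic connectedness and almost abelian groups: definitions

`E` is a complex normed space and `X` a complex manifold with charts in `E`
(`IsManifold 𝓘(ℂ, E) ω X`); the underlying real manifold is `X` with the same charts
(`IsManifold 𝓘(ℝ, E) ∞ X`).
-/

set_option autoImplicit false

open scoped Manifold ContDiff Topology ENNReal
open Set Bundle Manifold

noncomputable section

namespace Pool.Agent.K4H24.EK

open Pool.Agent.Y503.HC

section Kaehler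

variable {E : Type} [NormedAddCommGroup E] [NormedSpace ℂ E]
  {X : Type} [TopologicalSpace X] [ChartedSpace E X] [IsManifold 𝓘(ℝ, E) ∞ X]

/-- The complex structure `J` of the tangent space of `X` at `x`. (The tangent space is identified
with `E` by the holomorphic chart `chartAt E x`, and `J` is the multiplication by `i`.) -/
def J (x : X) (v : TangentSpace 𝓘(ℝ, E) x) : TangentSpace 𝓘(ℝ, E) x :=
  (Complex.I • (show E from v) : E)

/-- The fundamental form `ω(v, w) = g(J v, w)` of the Riemannian metric `g`, at the point `x`. -/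
def fundForm (g : Metric 𝓘(ℝ, E) X) (x : X) (v w : TangentSpace 𝓘(ℝ, E) x) : ℝ :=
  g.inner x (J x v) w

/-- The fundamental form in the chart of `X` at `a`: the value of the pull-back of `ω` along the
inverse of this chart, at the point `y`, on the vectors `v` and `w`. -/
def chartForm (g : Metric 𝓘(ℝ, E) X) (a : X) (v w : E) (y : E) : ℝ :=
  fundForm g ((extChartAt 𝓘(ℝ, E) a).symm y)
    (mfderiv 𝓘(ℝ, E) 𝓘(ℝ, E) (extChartAt 𝓘(ℝ, E) a).symm y v)
    (mfderiv 𝓘(ℝ, E) 𝓘(ℝ, E) (extChartAt 𝓘(ℝ, E) a).symm y w)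

/-- The smooth Riemannian metric `g` on the complex manifold `X` is a Kähler metric: `g` is
hermitian (`J` is an isometry), and the fundamental form `ω` is closed. The latter is expressed in
the charts of `X`: the exterior derivative
`dω(u, v, w) = D_u (ω(v, w)) + D_v (ω(w, u)) + D_w (ω(u, v))` (`u`, `v`, `w` constant vector
fields) vanishes. -/
structure IsKaehler (g : Metric 𝓘(ℝ, E) X) : Prop where
  hermitian : ∀ (x : X) (v w : TangentSpace 𝓘(ℝ, E) x), g.inner x (J x v) (J x w) = g.inner x v w
  closed : ∀ (a : X), ∀ y ∈ (extChartAt 𝓘(ℝ, E) a).target, ∀ u v w : E,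
    fderiv ℝ (chartForm g a v w) y u + fderiv ℝ (chartForm g a w u) y v +
      fderiv ℝ (chartForm g a u v) y w = 0

/-- The Riemannian metric `g` is complete: all Cauchy sequences for the Riemannian distance (the
infimum of the lengths of the `C¹` paths) are convergent. -/
def IsComplete (g : Metric 𝓘(ℝ, E) X) : Prop :=
  ∀ s : ℕ → X, (∀ ε : ℝ≥0∞, 0 < ε → ∃ N, ∀ m ≥ N, ∀ n ≥ N, dist g (s m) (s n) < ε) →
    ∃ x : X, Filter.Tendsto (fun n => dist g (s n) x) Filter.atTop (𝓝 0)

end Kaehler

section Elliptic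

variable (E : Type) [NormedAddCommGroup E] [NormedSpace ℂ E]
  (X : Type) [TopologicalSpace X] [ChartedSpace E X]

/-- The subset `Z` of the complex manifold `X` is the image of a holomorphic map `S → X`, where `S`
is a non-hyperbolic curve or a complex torus. For the projective line, a holomorphic map is a pair
of holomorphic maps `f`, `g` on `ℂ` with `g(1 / z) = f(z)` for `z ≠ 0`, and its image is the image
of `f` together with the point `g(0)`. For a complex torus `ℂ ^ m / Λ` it is a `Λ`-periodic
holomorphic map `f` on `ℂ ^ m`. For `ℂ` it is a holomorphic map on `ℂ`; the images of the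
holomorphic maps on `ℂ*` and on elliptic curves are the images of their compositions with the
universal coverings by `ℂ`, and so are among the images of holomorphic maps on `ℂ`. -/
def IsPiece (Z : Set X) : Prop :=
  (∃ f : ℂ → X, ContMDiff 𝓘(ℂ, ℂ) 𝓘(ℂ, E) ω f ∧ Z = range f) ∨
  (∃ f g : ℂ → X, ContMDiff 𝓘(ℂ, ℂ) 𝓘(ℂ, E) ω f ∧ ContMDiff 𝓘(ℂ, ℂ) 𝓘(ℂ, E) ω g ∧
    (∀ z : ℂ, z ≠ 0 → g z⁻¹ = f z) ∧ Z = insert (g 0) (range f)) ∨
  (∃ (m : ℕ) (Λ : Submodule ℤ (Fin m → ℂ)) (_ : DiscreteTopology Λ) (_ : IsZLattice ℝ Λ)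
    (f : (Fin m → ℂ) → X), ContMDiff 𝓘(ℂ, Fin m → ℂ) 𝓘(ℂ, E) ω f ∧
      (∀ l ∈ Λ, ∀ z, f (z + l) = f z) ∧ Z = range f)

variable {X} in
/-- The points `x` and `y` are joined by a finite chain `Z 0, …, Z k` of subsets of `X` with the
property `P`. -/
def IsJoined (P : Set X → Prop) (x y : X) : Prop :=
  ∃ (k : ℕ) (Z : ℕ → Set X), x ∈ Z 0 ∧ y ∈ Z k ∧ (∀ i ≤ k, P (Z i)) ∧
    ∀ i < k, (Z i ∩ Z (i + 1)).Nonempty

/-- The complex manifold `X` is elliptically connected: any two points are joined by a finite chain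
of images of holomorphic maps from non-hyperbolic curves or complex tori. -/
def IsEllipticallyConnected : Prop := ∀ x y : X, IsJoined (IsPiece E X) x y

/-- The subset `Z` of the complex manifold `X` is the image of a proper holomorphic map
`ℂ* → X` (so `Z` is a closed analytic curve). The map is given by its composition `f` with
`ℂ → ℂ*`, `t ↦ exp(2 π i t)`: a holomorphic map `f` with period `1`, and it is proper if and only
if `f(t)` leaves every compact subset of `X` for `|Im t| → ∞`. -/
def IsProperCStar (Z : Set X) : Prop :=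
  ∃ f : ℂ → X, ContMDiff 𝓘(ℂ, ℂ) 𝓘(ℂ, E) ω f ∧ (∀ t, f (t + 1) = f t) ∧
    (∀ K : Set X, IsCompact K → ∃ R : ℝ, ∀ t, f t ∈ K → |t.im| ≤ R) ∧ Z = range f

end Elliptic

/-- The group `G` is almost abelian: it has an abelian subgroup of finite index. -/
def IsAlmostAbelian (G : Type) [Group G] : Prop :=
  ∃ H : Subgroup G, H.FiniteIndex ∧ ∀ a ∈ H, ∀ b ∈ H, a * b = b * a

end Pool.Agent.K4H24.EK
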