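import Pool.Agent.K4H24.EK.Complete

/-! The fundamental group, and entire curves in the quotient. -/

set_option autoImplicit false

open scoped Manifold ContDiff Topology ENNReal
open Set

noncomputable section

namespace Pool.Agent.K4H24.EK

instance : SimplyConnectedSpace C3 := inferInstance

/-- the fundamental group -/
def piEquiv (x : XX) : FundamentalGroup XX x ≃* Hz :=
  (hcov.fundamentalGroupEquiv ⟨Function.surjInv hsurj x, Function.surjInv_eq hsurj x⟩).trans
    (MulEquiv.inv' Hz).symm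

lemma pow_a (n : ℕ) : (⟨1, 0, 0⟩ : Hz) ^ n = ⟨n, 0, 0⟩ := by
  induction n with
  | zero => rfl
  | succ n ih =>
    rw [pow_succ, ih]
    ext <;> simp

lemma pow_b (n : ℕ) : (⟨0, 1, 0⟩ : Hz) ^ n = ⟨0, n, 0⟩ := by
  induction n with
  | zero => rfl
  | succ n ih =>
    rw [pow_succ, ih]
    ext <;> simp

lemma not_almostAbelian_of_equiv {G : Type} [Group G] (e : G ≃* Hz) : ¬ IsAlmostAbelian G := by
  rintro ⟨H, hH, hab⟩
  obtain ⟨n, hn, -, hnH⟩ := Subgroup.exists_pow_mem_of_index_ne_zero hH.index_ne_zero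
    (e.symm ⟨1, 0, 0⟩)
  obtain ⟨m, hm, -, hmH⟩ := Subgroup.exists_pow_mem_of_index_ne_zero hH.index_ne_zero
    (e.symm ⟨0, 1, 0⟩)
  have h := congrArg e (hab _ hnH _ hmH)
  simp only [map_mul, map_pow, MulEquiv.apply_symm_apply, pow_a, pow_b] at h
  have hc := congrArg Hz.c h
  simp only [Hz.mul_c, add_zero, zero_mul, zero_add] at hc
  have : ((n * m : ℕ) : ℤ) = 0 := by push_cast; exact hc
  have h2 : n * m = 0 := by exact_mod_cast this
  rcases mul_eq_zero.1 h2 with h3 | h3 <;> omega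

/-- any two points lie on an entire curve -/
lemma exists_curve (x y : XX) : ∃ f : ℂ → XX, ContMDiff 𝓘(ℂ, ℂ) 𝓘(ℂ, C3) ω f ∧ f 0 = x ∧ f 1 = y := by
  obtain ⟨p, rfl⟩ := hsurj x
  obtain ⟨q, rfl⟩ := hsurj y
  refine ⟨fun t => pr (p + t • (q - p)), ?_, ?_, ?_⟩
  · have h1 : ContDiff ℂ ω (fun t : ℂ => p + t • (q - p)) :=
      contDiff_const.add (contDiff_id.smul contDiff_const)
    exact pr_holo.comp h1.contMDiff
  · simp
  · simp

lemma elliptic : IsEllipticallyConnected C3 XX := by
  intro x y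
  obtain ⟨f, h1, h2, h3⟩ := exists_curve x y
  refine ⟨0, fun _ => range f, ⟨0, h2⟩, ⟨1, h3⟩, fun i _ => Or.inl ⟨f, h1, rfl⟩, ?_⟩
  intro i hi
  omega

lemma properCStar (p v : C3) (g : Hz) (h1 : ∀ t : ℂ, p + (t + 1) • v = g • (p + t • v))
    (φ : C3 → ℝ) (hφ : ContDiff ℝ ∞ φ) (hinv : ∀ (g : Hz) p, φ (g • p) = φ p) (c : ℝ)
    (h2 : ∀ t : ℂ, φ (p + t • v) = c + t.im) :
    IsProperCStar C3 XX (range fun t : ℂ => pr (p + t • v)) := by
  refine ⟨fun t => pr (p + t • v), ?_, ?_, ?_, rfl⟩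
  · have h1 : ContDiff ℂ ω (fun t : ℂ => p + t • v) :=
      contDiff_const.add (contDiff_id.smul contDiff_const)
    exact pr_holo.comp h1.contMDiff
  · intro t
    show pr (p + (t + 1) • v) = pr (p + t • v)
    rw [h1, pr_smul]
  · intro K hK
    obtain ⟨R, hR⟩ := hK.exists_bound_of_continuousOn
      (desc_smooth hφ hinv).continuous.continuousOn
    refine ⟨R + |c|, fun t ht => ?_⟩
    have h3 := hR _ ht
    rw [desc_pr hinv, h2, Real.norm_eq_abs] at h3
    have h4 := abs_sub_abs_le_abs_sub t.im (-c)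
    rw [abs_neg, sub_neg_eq_add, add_comm t.im c] at h4
    linarith

lemma chain (x y : XX) : IsJoined (IsProperCStar C3 XX) x y := by
  obtain ⟨p, rfl⟩ := hsurj x
  obtain ⟨q, rfl⟩ := hsurj y
  set p1 : C3 := vec (xL q) (yL p) (zL p + (xL q - xL p) * yL p) with hp1
  set p2 : C3 := vec (xL q) (yL q) (zL p + (xL q - xL p) * yL p) with hp2
  refine ⟨2, fun i => match i with
    | 0 => range fun t : ℂ => pr (p + t • vec 1 0 (yL p))
    | 1 => range fun t : ℂ => pr (p1 + t • vec 0 1 0)
    | _ => range fun t : ℂ => pr (p2 + t • vec 0 0 1), ⟨0, by simp⟩,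
    ⟨zL q - zL p2, ?_⟩, ?_, ?_⟩
  · show pr _ = pr q
    congr 1
    apply c3_ext
    · simp [hp2]
    · simp [hp2]
    · simp
  · intro i hi
    match i with
    | 0 =>
      apply properCStar p (vec 1 0 (yL p)) ⟨1, 0, 0⟩ _ xi xi.contDiff xi_inv (xi p)
      · intro t
        rw [xi_apply, xi_apply]
        simp
      · intro t
        apply c3_ext
        · simp; ring
        · simp
        · simp; ring
    | 1 =>
      apply properCStar p1 (vec 0 1 0) ⟨0, 1, 0⟩ _ yi yi.contDiff yi_inv (yi p1)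
      · intro t
        rw [yi_apply, yi_apply]
        simp
      · intro t
        apply c3_ext
        · simp
        · simp; ring
        · simp
    | (n + 2) =>
      apply properCStar p2 (vec 0 0 1) ⟨0, 0, 1⟩ _ uf contDiff_uf uf_smul (uf p2)
      · intro t
        unfold uf
        simp only [zi_apply, xr_apply, yi_apply]
        simp
        ring
      · intro t
        apply c3_ext
        · simp
        · simp
        · simp; ring
  · intro i hi
    match i with
    | 0 =>
      refine ⟨pr p1, ⟨xL q - xL p, ?_⟩, ⟨0, by simp⟩⟩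
      show pr _ = pr p1
      congr 1
      apply c3_ext
      · simp [hp1]
      · simp [hp1]
      · simp [hp1]
    | 1 =>
      refine ⟨pr p2, ⟨yL q - yL p, ?_⟩, ⟨0, by simp⟩⟩
      show pr _ = pr p2
      congr 1
      apply c3_ext
      · simp [hp1, hp2]
      · simp [hp1, hp2]
      · simp [hp1, hp2]
    | (n + 2) => omega

lemma finrank_C3 : Module.finrank ℂ C3 = 3 := by
  show Module.finrank ℂ (ℂ × ℂ × ℂ) = 3
  simp

end Pool.Agent.K4H24.EK
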