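import Pool.Agent.K4H24.EK.Space
import Pool.Agent.Y503.HC.QMetric2

/-! The Kähler form on `ℂ³`. -/

set_option autoImplicit false

open scoped Manifold ContDiff Topology ENNReal
open Set

noncomputable section

namespace Pool.Agent.K4H24.EK

/-- real part of `x` -/
def xr : C3 →L[ℝ] ℝ := Complex.reCLM.comp (xL.restrictScalars ℝ)
/-- imaginary part of `x` -/
def xi : C3 →L[ℝ] ℝ := Complex.imCLM.comp (xL.restrictScalars ℝ)
/-- real part of `y` -/
def yr : C3 →L[ℝ] ℝ := Complex.reCLM.comp (yL.restrictScalars ℝ)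
/-- imaginary part of `y` -/
def yi : C3 →L[ℝ] ℝ := Complex.imCLM.comp (yL.restrictScalars ℝ)
/-- real part of `z` -/
def zr : C3 →L[ℝ] ℝ := Complex.reCLM.comp (zL.restrictScalars ℝ)
/-- imaginary part of `z` -/
def zi : C3 →L[ℝ] ℝ := Complex.imCLM.comp (zL.restrictScalars ℝ)

lemma xr_apply (p : C3) : xr p = (xL p).re := rfl
lemma xi_apply (p : C3) : xi p = (xL p).im := rfl
lemma yr_apply (p : C3) : yr p = (yL p).re := rfl
lemma yi_apply (p : C3) : yi p = (yL p).im := rfl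
lemma zr_apply (p : C3) : zr p = (zL p).re := rfl
lemma zi_apply (p : C3) : zi p = (zL p).im := rfl

/-- multiplication by `i` -/
def JJ : C3 →L[ℝ] C3 := (Complex.I • ContinuousLinearMap.id ℂ C3).restrictScalars ℝ

lemma JJ_apply (p : C3) : JJ p = Complex.I • p := rfl

@[simp] lemma xr_J (p : C3) : xr (JJ p) = - xi p := by
  simp [xr_apply, xi_apply, JJ_apply]
@[simp] lemma xi_J (p : C3) : xi (JJ p) = xr p := by
  simp [xr_apply, xi_apply, JJ_apply]
@[simp] lemma yr_J (p : C3) : yr (JJ p) = - yi p := by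
  simp [yr_apply, yi_apply, JJ_apply]
@[simp] lemma yi_J (p : C3) : yi (JJ p) = yr p := by
  simp [yr_apply, yi_apply, JJ_apply]
@[simp] lemma zr_J (p : C3) : zr (JJ p) = - zi p := by
  simp [zr_apply, zi_apply, JJ_apply]
@[simp] lemma zi_J (p : C3) : zi (JJ p) = zr p := by
  simp [zr_apply, zi_apply, JJ_apply]

/-- the function `u = Im z - Re x Im y` -/
def uf (p : C3) : ℝ := zi p - xr p * yi p

/-- the differential of `u` -/
def du (p : C3) : C3 →L[ℝ] ℝ := zi - yi p • xr - xr p • yi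

lemma du_apply (p v : C3) : du p v = zi v - yi p * xr v - xr p * yi v := rfl

lemma hasFDerivAt_uf (p : C3) : HasFDerivAt uf (du p) p := by
  have h := (zi.hasFDerivAt (x := p)).sub ((xr.hasFDerivAt (x := p)).mul (yi.hasFDerivAt (x := p)))
  refine h.congr_fderiv ?_
  unfold du
  ext v
  simp
  ring

lemma contDiff_uf : ContDiff ℝ ∞ uf := zi.contDiff.sub (xr.contDiff.mul yi.contDiff)

lemma contDiff_du : ContDiff ℝ ∞ du :=
  (contDiff_const.sub (yi.contDiff.smul contDiff_const)).sub (xr.contDiff.smul contDiff_const)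

/-- a constant form -/
def Qf : C3 →L[ℝ] C3 →L[ℝ] ℝ :=
  (1 / 2 : ℝ) • (xi.smulRight yr - xr.smulRight yi + yr.smulRight xi - yi.smulRight xr)

/-- a constant form -/
def Rf : C3 →L[ℝ] C3 →L[ℝ] ℝ :=
  (2 : ℝ) • (xr.smulRight xr + xi.smulRight xi + yr.smulRight yr + yi.smulRight yi)

lemma Qf_apply (v w : C3) : Qf v w =
    1 / 2 * (xi v * yr w - xr v * yi w + yr v * xi w - yi v * xr w) := rfl

lemma Rf_apply (v w : C3) : Rf v w =
    2 * (xr v * xr w + xi v * xi w + yr v * yr w + yi v * yi w) := rfl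

/-- the hermitian metric -/
def Bf (p : C3) : C3 →L[ℝ] C3 →L[ℝ] ℝ :=
  ((1 / 2 * (1 + uf p ^ 2)⁻¹ : ℝ) • du p).smulRight (du p) +
    ((1 / 2 * (1 + uf p ^ 2)⁻¹ : ℝ) • (du p).comp JJ).smulRight ((du p).comp JJ) +
    Real.arctan (uf p) • Qf + Rf

lemma Bf_apply (p v w : C3) : Bf p v w = 1 / 2 * (1 + uf p ^ 2)⁻¹ *
    (du p v * du p w + du p (JJ v) * du p (JJ w)) + Real.arctan (uf p) * Qf v w + Rf v w := by
  have h : Bf p v w = (1 / 2 * (1 + uf p ^ 2)⁻¹ * du p v) * du p w +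
      (1 / 2 * (1 + uf p ^ 2)⁻¹ * du p (JJ v)) * du p (JJ w) + Real.arctan (uf p) * Qf v w +
      Rf v w := rfl
  rw [h]
  ring

lemma contDiff_Bf : ContDiff ℝ ∞ Bf := by
  unfold Bf
  have h1 : ContDiff ℝ ∞ (fun p => (1 / 2 * (1 + uf p ^ 2)⁻¹ : ℝ)) := by
    apply contDiff_const.mul
    apply ContDiff.inv
    · exact contDiff_const.add (contDiff_uf.pow 2)
    · intro p
      positivity
  have h2 : ContDiff ℝ ∞ (fun p => (du p).comp JJ) := contDiff_du.clm_comp contDiff_const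
  have h3 : ContDiff ℝ ∞ (fun p => ((1 / 2 * (1 + uf p ^ 2)⁻¹ : ℝ) • du p).smulRight (du p)) :=
    (h1.smul contDiff_du).smulRight contDiff_du
  have h4 : ContDiff ℝ ∞ (fun p => ((1 / 2 * (1 + uf p ^ 2)⁻¹ : ℝ) •
    (du p).comp JJ).smulRight ((du p).comp JJ)) := (h1.smul h2).smulRight h2
  have h6 : ContDiff ℝ ∞ (fun t : ℝ => t • Qf) := by
    have h7 : ContDiff ℝ ∞ (ContinuousLinearMap.toSpanSingleton ℝ Qf) :=
      ContinuousLinearMap.contDiff _
    exact h7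
  have h5 : ContDiff ℝ ∞ (fun p => Real.arctan (uf p) • Qf) :=
    h6.comp (Real.contDiff_arctan.comp contDiff_uf)
  exact ((h3.add h4).add h5).add contDiff_const

lemma Bf_symm (p v w : C3) : Bf p v w = Bf p w v := by
  rw [Bf_apply, Bf_apply, Qf_apply, Qf_apply, Rf_apply, Rf_apply]
  ring

lemma Bf_J (p v w : C3) : Bf p (JJ v) (JJ w) = Bf p v w := by
  rw [Bf_apply, Bf_apply, Qf_apply, Qf_apply, Rf_apply, Rf_apply]
  simp only [du_apply, xr_J, xi_J, yr_J, yi_J, zi_J, zr_J]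
  ring

lemma arctan_Qf (t : ℝ) (v : C3) : |Real.arctan t * Qf v v| ≤
    xr v ^ 2 + xi v ^ 2 + yr v ^ 2 + yi v ^ 2 := by
  have h1 : |Real.arctan t| ≤ 2 := by
    rw [abs_le]
    have h3 := Real.arctan_lt_pi_div_two t
    have h4 := Real.neg_pi_div_two_lt_arctan t
    have h5 := Real.pi_le_four
    constructor <;> linarith
  have h2 : |Qf v v| ≤ 1 / 2 * (xr v ^ 2 + xi v ^ 2 + yr v ^ 2 + yi v ^ 2) := by
    rw [Qf_apply, abs_le]
    constructor
    · nlinarith [sq_nonneg (xi v + yr v), sq_nonneg (xr v - yi v)]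
    · nlinarith [sq_nonneg (xi v - yr v), sq_nonneg (xr v + yi v)]
  rw [abs_mul]
  calc _ ≤ 2 * (1 / 2 * (xr v ^ 2 + xi v ^ 2 + yr v ^ 2 + yi v ^ 2)) :=
        mul_le_mul h1 h2 (abs_nonneg _) (by norm_num)
    _ = _ := by ring

lemma Bf_lower (p v : C3) : 1 / 2 * (1 + uf p ^ 2)⁻¹ * (du p v ^ 2 + du p (JJ v) ^ 2) +
    (xr v ^ 2 + xi v ^ 2 + yr v ^ 2 + yi v ^ 2) ≤ Bf p v v := by
  rw [Bf_apply, Rf_apply]
  have h := (abs_le.1 (arctan_Qf (uf p) v)).1
  nlinarith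

lemma Bf_pos (p v : C3) (hv : v ≠ 0) : 0 < Bf p v v := by
  have h := Bf_lower p v
  have h0 : 0 < (1 + uf p ^ 2)⁻¹ := by positivity
  have h1 : 0 ≤ 1 / 2 * (1 + uf p ^ 2)⁻¹ * (du p v ^ 2 + du p (JJ v) ^ 2) := by positivity
  have h2 : 0 ≤ xr v ^ 2 + xi v ^ 2 + yr v ^ 2 + yi v ^ 2 := by positivity
  by_contra hcon
  push Not at hcon
  have e2 : xr v ^ 2 + xi v ^ 2 + yr v ^ 2 + yi v ^ 2 = 0 := by linarith
  have e1 : 1 / 2 * (1 + uf p ^ 2)⁻¹ * (du p v ^ 2 + du p (JJ v) ^ 2) = 0 := by linarith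
  have hxr : xr v = 0 := by nlinarith [sq_nonneg (xr v), sq_nonneg (xi v), sq_nonneg (yr v), sq_nonneg (yi v)]
  have hxi : xi v = 0 := by nlinarith [sq_nonneg (xr v), sq_nonneg (xi v), sq_nonneg (yr v), sq_nonneg (yi v)]
  have hyr : yr v = 0 := by nlinarith [sq_nonneg (xr v), sq_nonneg (xi v), sq_nonneg (yr v), sq_nonneg (yi v)]
  have hyi : yi v = 0 := by nlinarith [sq_nonneg (xr v), sq_nonneg (xi v), sq_nonneg (yr v), sq_nonneg (yi v)]
  have e3 : du p v ^ 2 + du p (JJ v) ^ 2 = 0 := by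
    rcases mul_eq_zero.1 e1 with h | h
    · exfalso
      rcases mul_eq_zero.1 h with h | h
      · norm_num at h
      · exact h0.ne' h
    · exact h
  rw [du_apply, du_apply, xr_J, yi_J, zi_J, hxr, hxi, hyr, hyi] at e3
  have hzi : zi v = 0 := by nlinarith [sq_nonneg (zi v), sq_nonneg (zr v)]
  have hzr : zr v = 0 := by nlinarith [sq_nonneg (zi v), sq_nonneg (zr v)]
  apply hv
  apply c3_ext
  · rw [map_zero]; exact Complex.ext hxr hxi
  · rw [map_zero]; exact Complex.ext hyr hyi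
  · rw [map_zero]; exact Complex.ext hzr hzi

/-! Invariance. -/

lemma uf_smul (g : Hz) (p : C3) : uf (g • p) = uf p := by
  unfold uf
  rw [zi_apply, xr_apply, yi_apply, zi_apply, xr_apply, yi_apply, Hz.xL_smul, Hz.yL_smul,
    Hz.zL_smul]
  simp
  ring

lemma shear_J (g : Hz) (v : C3) : shear g.a (JJ v) = JJ (shear g.a v) := by
  rw [JJ_apply, JJ_apply, map_smul]

lemma du_smul (g : Hz) (p v : C3) : du (g • p) (shear g.a v) = du p v := by
  rw [du_apply, du_apply]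
  simp only [zi_apply, xr_apply, yi_apply, Hz.xL_smul, Hz.yL_smul, xL_shear, yL_shear, zL_shear]
  simp
  ring

lemma Bf_smul (g : Hz) (p v w : C3) : Bf (g • p) (shear g.a v) (shear g.a w) = Bf p v w := by
  rw [Bf_apply, Bf_apply, uf_smul, ← shear_J, ← shear_J, du_smul, du_smul, du_smul, du_smul]
  rfl

end Pool.Agent.K4H24.EK
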