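import Pool.Agent.K4H24.EK.Quot

/-! The metric on the quotient is a Kähler metric. -/

set_option autoImplicit false

open scoped Manifold ContDiff Topology ENNReal
open Set Bundle

noncomputable section

namespace Pool.Agent.K4H24.EK

open Pool.Agent.Y503.HC

/-- the derivative of the projection -/
def dpr (p : C3) : C3 →L[ℝ] C3 := mfderiv 𝓘(ℝ, C3) 𝓘(ℝ, C3) pr p

lemma J_pr (p v : C3) : J (E := C3) (X := XX) (pr p) (dpr p v) = dpr p (JJ v) := by
  obtain ⟨g, hg⟩ := mfderiv_pr p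
  have hg' : ∀ v, dpr p v = shear g.a v := hg
  have h1 : J (E := C3) (X := XX) (pr p) (dpr p v) = (Complex.I • (dpr p v : C3) : C3) := rfl
  rw [h1, hg', hg', JJ_apply, map_smul]

lemma dpr_surj (p v : C3) : ∃ v' : C3, dpr p v' = v := by
  obtain ⟨g, hg⟩ := mfderiv_pr p
  have hg' : ∀ v, dpr p v = shear g.a v := hg
  refine ⟨shear (-g.a) v, ?_⟩
  rw [hg']
  apply c3_ext
  · simp
  · simp
  · simp

lemma fundForm_pr (p v w : C3) :
    fundForm (E := C3) (X := XX) gX (pr p) (dpr p v) (dpr p w) = Bf p (JJ v) w := by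
  have h1 : (gX.inner (pr p) : C3 →L[ℝ] C3 →L[ℝ] ℝ) (dpr p (JJ v)) (dpr p w) = Bf p (JJ v) w :=
    gX_pr p (JJ v) w
  rw [← h1, ← J_pr]
  rfl

lemma chartForm_eq (a : XX) (v w : C3) :
    chartForm (E := C3) (X := XX) gX a v w = fun y => Bf y (JJ v) w := by
  funext y
  have h1 : ∀ f : C3 → XX, f = pr → fundForm (E := C3) (X := XX) gX (f y)
      (mfderiv 𝓘(ℝ, C3) 𝓘(ℝ, C3) f y v) (mfderiv 𝓘(ℝ, C3) 𝓘(ℝ, C3) f y w) =
      Bf y (JJ v) w := by
    rintro _ rfl
    exact fundForm_pr y v w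
  apply h1
  funext z
  simp only [mfld_simps]
  exact chart_symm a z

lemma isKaehler_gX : IsKaehler (E := C3) (X := XX) gX where
  hermitian := by
    intro x v w
    obtain ⟨p, rfl⟩ := hsurj x
    obtain ⟨v', hv⟩ := dpr_surj p v
    obtain ⟨w', hw⟩ := dpr_surj p w
    subst hv hw
    have h1 := J_pr p v'
    have h2 := J_pr p w'
    have h3 : (gX.inner (pr p) : C3 →L[ℝ] C3 →L[ℝ] ℝ) (dpr p (JJ v')) (dpr p (JJ w')) =
        (gX.inner (pr p) : C3 →L[ℝ] C3 →L[ℝ] ℝ) (dpr p v') (dpr p w') :=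
      (gX_pr p (JJ v') (JJ w')).trans ((Bf_J p v' w').trans (gX_pr p v' w').symm)
    rw [← h1, ← h2] at h3
    exact h3
  closed := by
    intro a y _ u v w
    rw [chartForm_eq, chartForm_eq, chartForm_eq]
    exact closed_Bf y u v w

end Pool.Agent.K4H24.EK
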