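import Pool.Agent.K4H24.EK.Closed

/-! The quotient manifold. -/

set_option autoImplicit false

open scoped Manifold ContDiff Topology ENNReal
open Set Bundle

noncomputable section

namespace Pool.Agent.K4H24.EK

open Pool.Agent.Y503.HC

/-- The quotient of `ℂ³` by the action of the integral Heisenberg group. -/
abbrev XX : Type := MulAction.orbitRel.Quotient Hz C3

/-- the projection -/
def pr : C3 → XX := Quotient.mk (MulAction.orbitRel Hz C3)

lemma hcov : IsQuotientCoveringMap pr Hz :=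
  isQuotientCoveringMap_quotientMk_of_properlyDiscontinuousSMul

lemma hlh : IsLocalHomeomorph pr := hcov.isCoveringMap.isLocalHomeomorph

lemma hsurj : Function.Surjective pr := Quotient.mk_surjective

lemma pr_eq {p q : C3} : pr p = pr q ↔ ∃ g : Hz, g • p = q := by
  rw [eq_comm]
  unfold pr
  rw [Quotient.eq]
  exact Iff.rfl

lemma pr_smul (g : Hz) (p : C3) : pr (g • p) = pr p := (pr_eq.2 ⟨g, rfl⟩).symm

instance : T2Space XX := inferInstanceAs (T2Space (Quotient (MulAction.orbitRel Hz C3)))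

instance : SecondCountableTopology XX :=
  ContinuousConstSMul.secondCountableTopology (Γ := Hz) (T := C3)

instance : ConnectedSpace XX := hsurj.connectedSpace hlh.continuous

lemma chart_ex (q : XX) : ∃ x : C3, pr x = q ∧
    chartAt C3 q = (hlh.localInverseAt x).trans (chartAt C3 x) :=
  ⟨hsurj.hasRightInverse.choose q, hsurj.hasRightInverse.choose_spec q, rfl⟩

lemma chart_ex' (q : XX) : ∃ x : C3,
    chartAt C3 q = (hlh.localInverseAt x).trans (chartAt C3 x) :=
  let ⟨x, _, h⟩ := chart_ex q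
  ⟨x, h⟩

/-- the metric on `ℂ³` -/
def gC : Metric 𝓘(ℝ, C3) C3 where
  inner p := Bf p
  symm p v w := Bf_symm p v w
  pos p v hv := Bf_pos p v hv
  isVonNBounded p := isVonNBounded_of_pos (E := C3) (Bf p) (fun v hv => Bf_pos p v hv)
  contMDiff := by
    intro p0
    rw [smooth_iff_cform]
    have h : (fun p => cform (I := 𝓘(ℝ, C3)) (M := C3) (fun p => Bf p) p0
        (extChartAt 𝓘(ℝ, C3) p0 p)) = Bf := by
      funext p
      have key : ∀ f : C3 → C3, f = id →
          (mfderiv 𝓘(ℝ, C3) 𝓘(ℝ, C3) f p : C3 →L[ℝ] C3) = ContinuousLinearMap.id ℝ C3 := by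
        rintro _ rfl
        exact mfderiv_id
      have h1 : Dch (I := 𝓘(ℝ, C3)) (M := C3) p0 p = ContinuousLinearMap.id ℝ C3 := by
        unfold Dch
        apply key
        simp only [mfld_simps]
      unfold cform
      simp only [mfld_simps]
      rw [h1]
      rfl
    rw [h]
    exact contDiff_Bf.contMDiff p0

lemma gC_inner (p : C3) (v w : TangentSpace 𝓘(ℝ, C3) p) : gC.inner p v w = Bf p v w := rfl

lemma mfderiv_smul (g : Hz) (p v : C3) :
    (mfderiv 𝓘(ℝ, C3) 𝓘(ℝ, C3) (fun p : C3 => g • p) p : C3 →L[ℝ] C3) v = shear g.a v := by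
  rw [mfderiv_eq_fderiv, (Hz.hasFDerivAt_smul g p).fderiv]
  rfl

lemma gdeck : GDeck gC pr := by
  intro x y hxy
  obtain ⟨g, hg⟩ := pr_eq.1 hxy
  refine ⟨fun p => g • p, (Hz.contDiff_smul_real g).contMDiff, hg, fun z => pr_smul g z, ?_⟩
  intro z v w
  have h1 := mfderiv_smul g z v
  have h2 := mfderiv_smul g z w
  refine Eq.trans ?_ (Bf_smul g z v w)
  show Bf (g • z) ((mfderiv 𝓘(ℝ, C3) 𝓘(ℝ, C3) (fun p : C3 => g • p) z : C3 →L[ℝ] C3) v)
    ((mfderiv 𝓘(ℝ, C3) 𝓘(ℝ, C3) (fun p : C3 => g • p) z : C3 →L[ℝ] C3) w) = _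
  rw [h1, h2]

instance : IsManifold 𝓘(ℝ, C3) ∞ XX := quot_isManifold hlh hsurj gdeck.deck

/-- the metric on the quotient -/
def gX : Metric 𝓘(ℝ, C3) XX := metricN hlh hsurj chart_ex gdeck

lemma gX_pr (p : C3) (v w : C3) :
    (gX.inner (pr p) : C3 →L[ℝ] C3 →L[ℝ] ℝ)
      ((mfderiv 𝓘(ℝ, C3) 𝓘(ℝ, C3) pr p : C3 →L[ℝ] C3) v)
      ((mfderiv 𝓘(ℝ, C3) 𝓘(ℝ, C3) pr p : C3 →L[ℝ] C3) w) = Bf p v w :=
  innerN_induced hlh hsurj chart_ex' gdeck p v w

/-! The charts. -/

/-- the inverse of a chart is the projection -/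
lemma chart_symm (q : XX) (y : C3) : (chartAt C3 q).symm y = pr y := by
  obtain ⟨x, hx⟩ := chart_ex' q
  rw [hx]
  simp [hlh.localInverseAt_symm x]

lemma pr_near (p : C3) (q : XX) (hq : pr p ∈ (chartAt C3 q).source) :
    ∃ g : Hz, g • p = chartAt C3 q (pr p) ∧
      ∀ᶠ w in 𝓝 p, g • w ∈ (chartAt C3 q).target ∧ chartAt C3 q (pr w) = g • w := by
  have h1 : chartAt C3 q (pr p) ∈ (chartAt C3 q).target := (chartAt C3 q).map_source hq
  have h2 : pr (chartAt C3 q (pr p)) = pr p := by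
    rw [← chart_symm q, (chartAt C3 q).left_inv hq]
  obtain ⟨g, hg⟩ := pr_eq.1 h2.symm
  refine ⟨g, hg, ?_⟩
  have h3 : ∀ᶠ w in 𝓝 p, g • w ∈ (chartAt C3 q).target := by
    have hc : ContinuousAt (fun w : C3 => g • w) p := (continuous_const_smul g).continuousAt
    apply hc.eventually
    apply (chartAt C3 q).open_target.mem_nhds
    show g • p ∈ _
    rw [hg]; exact h1
  filter_upwards [h3] with w hw
  refine ⟨hw, ?_⟩
  have h4 := (chartAt C3 q).right_inv hw
  rw [chart_symm, pr_smul] at h4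
  exact h4

instance : IsManifold 𝓘(ℂ, C3) ω XX := by
  apply isManifold_of_contDiffOn
  rintro c c' ⟨a, rfl⟩ ⟨b, rfl⟩
  intro y hy
  have hy0 : y ∈ ((chartAt C3 a).symm.trans (chartAt C3 b)).source := hy.1
  rw [OpenPartialHomeomorph.trans_source] at hy0
  have hy1 : pr y ∈ (chartAt C3 b).source := by
    have : (chartAt C3 a).symm y ∈ (chartAt C3 b).source := hy0.2
    rwa [chart_symm] at this
  obtain ⟨g, hg, hev⟩ := pr_near y b hy1
  have h5 : ContDiffAt ℂ ω (fun w : C3 => g • w) y := (Hz.contDiff_smul g).contDiffAt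
  have h6 : (𝓘(ℂ, C3) ∘ (chartAt C3 a).symm.trans (chartAt C3 b) ∘ 𝓘(ℂ, C3).symm) =ᶠ[𝓝 y]
      fun w : C3 => g • w := by
    filter_upwards [hev] with w hw
    show chartAt C3 b ((chartAt C3 a).symm w) = g • w
    rw [chart_symm]
    exact hw.2
  exact (h5.congr_of_eventuallyEq h6).contDiffWithinAt

/-- the projection is holomorphic -/
lemma pr_holo : ContMDiff 𝓘(ℂ, C3) 𝓘(ℂ, C3) ω pr := by
  intro p
  obtain ⟨g, hg, hev⟩ := pr_near p (pr p) (mem_chart_source C3 (pr p))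
  have h1 : ContMDiffAt 𝓘(ℂ, C3) 𝓘(ℂ, C3) ω (chartAt C3 (pr p)).symm (g • p) :=
    (contMDiffOn_chart_symm (I := 𝓘(ℂ, C3)) (x := pr p)).contMDiffAt
      ((chartAt C3 (pr p)).open_target.mem_nhds hev.self_of_nhds.1)
  have h2 : ContMDiffAt 𝓘(ℂ, C3) 𝓘(ℂ, C3) ω (fun w : C3 => g • w) p :=
    (Hz.contDiff_smul g).contMDiff p
  have h3 := ContMDiffAt.comp (g := (chartAt C3 (pr p)).symm) (f := fun w : C3 => g • w) p h1 h2
  refine h3.congr_of_eventuallyEq ?_
  filter_upwards with w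
  show pr w = (chartAt C3 (pr p)).symm (g • w)
  rw [chart_symm, pr_smul]

/-- the derivative of the projection is the linear part of an element of the group -/
lemma mfderiv_pr (p : C3) : ∃ g : Hz, ∀ v : C3,
    (mfderiv 𝓘(ℝ, C3) 𝓘(ℝ, C3) pr p : C3 →L[ℝ] C3) v = shear g.a v := by
  obtain ⟨g, hg, hev⟩ := pr_near p (pr p) (mem_chart_source C3 (pr p))
  refine ⟨g, fun v => ?_⟩
  have hd : MDifferentiableAt 𝓘(ℝ, C3) 𝓘(ℝ, C3) pr p :=
    (f_contMDiffAt hlh gdeck.deck chart_ex' p).mdifferentiableAt (by simp)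
  have h1 : HasFDerivAt (fun w => chartAt C3 (pr p) (pr w)) ((shear g.a).restrictScalars ℝ) p := by
    refine (Hz.hasFDerivAt_smul g p).congr_of_eventuallyEq ?_
    filter_upwards [hev] with w hw
    exact hw.2
  have h2 : mfderiv 𝓘(ℝ, C3) 𝓘(ℝ, C3) pr p =
      fderiv ℝ (fun w => chartAt C3 (pr p) (pr w)) p := by
    rw [hd.mfderiv]
    simp only [writtenInExtChartAt, mfld_simps, fderivWithin_univ]
    rfl
  have h3 := h1.fderiv
  rw [h3] at h2
  exact congrArg (fun L : C3 →L[ℝ] C3 => L v) h2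

end Pool.Agent.K4H24.EK
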