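import Pool.Agent.K4H24.EK.Defs

/-! The space `ℂ³`, the integral Heisenberg group and its action. -/

set_option autoImplicit false

open scoped Manifold ContDiff Topology ENNReal
open Set

noncomputable section

namespace Pool.Agent.K4H24.EK

/-- The complex vector space `ℂ³`. -/
def C3 : Type := ℂ × ℂ × ℂ

instance : NormedAddCommGroup C3 := inferInstanceAs (NormedAddCommGroup (ℂ × ℂ × ℂ))
instance : NormedSpace ℂ C3 := inferInstanceAs (NormedSpace ℂ (ℂ × ℂ × ℂ))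
instance : FiniteDimensional ℂ C3 := inferInstanceAs (FiniteDimensional ℂ (ℂ × ℂ × ℂ))
instance : ProperSpace C3 := inferInstanceAs (ProperSpace (ℂ × ℂ × ℂ))
instance : SecondCountableTopology C3 := inferInstanceAs (SecondCountableTopology (ℂ × ℂ × ℂ))
instance : FiniteDimensional ℝ C3 := FiniteDimensional.complexToReal C3

/-- constructor -/
def vec (x y z : ℂ) : C3 := (x, y, z)

/-- first coordinate -/
def xL : C3 →L[ℂ] ℂ := ContinuousLinearMap.fst ℂ ℂ (ℂ × ℂ)
/-- second coordinate -/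
def yL : C3 →L[ℂ] ℂ := (ContinuousLinearMap.fst ℂ ℂ ℂ).comp (ContinuousLinearMap.snd ℂ ℂ (ℂ × ℂ))
/-- third coordinate -/
def zL : C3 →L[ℂ] ℂ := (ContinuousLinearMap.snd ℂ ℂ ℂ).comp (ContinuousLinearMap.snd ℂ ℂ (ℂ × ℂ))

@[simp] lemma xL_vec (x y z : ℂ) : xL (vec x y z) = x := rfl
@[simp] lemma yL_vec (x y z : ℂ) : yL (vec x y z) = y := rfl
@[simp] lemma zL_vec (x y z : ℂ) : zL (vec x y z) = z := rfl

lemma vec_eta (p : C3) : vec (xL p) (yL p) (zL p) = p := rfl

lemma c3_ext {p q : C3} (h1 : xL p = xL q) (h2 : yL p = yL q) (h3 : zL p = zL q) : p = q := by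
  rw [← vec_eta p, ← vec_eta q, h1, h2, h3]

lemma norm_c3 (p : C3) : ‖p‖ = max ‖xL p‖ (max ‖yL p‖ ‖zL p‖) := rfl

lemma norm_xL_le (p : C3) : ‖xL p‖ ≤ ‖p‖ := by rw [norm_c3]; exact le_max_left _ _
lemma norm_yL_le (p : C3) : ‖yL p‖ ≤ ‖p‖ := by
  rw [norm_c3]; exact (le_max_left _ _).trans (le_max_right _ _)
lemma norm_zL_le (p : C3) : ‖zL p‖ ≤ ‖p‖ := by
  rw [norm_c3]; exact (le_max_right _ _).trans (le_max_right _ _)

lemma norm_le_of {p : C3} {r : ℝ} (h1 : ‖xL p‖ ≤ r) (h2 : ‖yL p‖ ≤ r) (h3 : ‖zL p‖ ≤ r) :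
    ‖p‖ ≤ r := by rw [norm_c3]; exact max_le h1 (max_le h2 h3)

/-- the map `(x, y, z) ↦ (x, y, z + a y)` -/
def shear (a : ℂ) : C3 →L[ℂ] C3 :=
  xL.prod (yL.prod (zL + a • yL))

@[simp] lemma xL_shear (a : ℂ) (p : C3) : xL (shear a p) = xL p := rfl
@[simp] lemma yL_shear (a : ℂ) (p : C3) : yL (shear a p) = yL p := rfl
@[simp] lemma zL_shear (a : ℂ) (p : C3) : zL (shear a p) = zL p + a * yL p := rfl

/-- The integral Heisenberg group. -/
@[ext] structure Hz where
  /-- first coordinate -/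
  a : ℤ
  /-- second coordinate -/
  b : ℤ
  /-- third coordinate -/
  c : ℤ

namespace Hz

instance : Group Hz where
  mul g h := ⟨g.a + h.a, g.b + h.b, g.c + h.c + g.a * h.b⟩
  one := ⟨0, 0, 0⟩
  inv g := ⟨-g.a, -g.b, -g.c + g.a * g.b⟩
  mul_assoc g h k := by
    ext
    · show g.a + h.a + k.a = g.a + (h.a + k.a); ring
    · show g.b + h.b + k.b = g.b + (h.b + k.b); ring
    · show g.c + h.c + g.a * h.b + k.c + (g.a + h.a) * k.b =
        g.c + (h.c + k.c + h.a * k.b) + g.a * (h.b + k.b)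
      ring
  one_mul g := by
    ext
    · show 0 + g.a = g.a; ring
    · show 0 + g.b = g.b; ring
    · show 0 + g.c + 0 * g.b = g.c; ring
  mul_one g := by
    ext
    · show g.a + 0 = g.a; ring
    · show g.b + 0 = g.b; ring
    · show g.c + 0 + g.a * 0 = g.c; ring
  inv_mul_cancel g := by
    ext
    · show -g.a + g.a = 0; ring
    · show -g.b + g.b = 0; ring
    · show -g.c + g.a * g.b + g.c + -g.a * g.b = 0; ring

@[simp] lemma mul_a (g h : Hz) : (g * h).a = g.a + h.a := rfl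
@[simp] lemma mul_b (g h : Hz) : (g * h).b = g.b + h.b := rfl
@[simp] lemma mul_c (g h : Hz) : (g * h).c = g.c + h.c + g.a * h.b := rfl
@[simp] lemma one_a : (1 : Hz).a = 0 := rfl
@[simp] lemma one_b : (1 : Hz).b = 0 := rfl
@[simp] lemma one_c : (1 : Hz).c = 0 := rfl

/-- the translation vector -/
def tv (g : Hz) : C3 := vec g.a g.b g.c

instance : MulAction Hz C3 where
  smul g p := shear g.a p + tv g
  one_smul p := by
    show shear ((0 : ℤ) : ℂ) p + vec ((0 : ℤ) : ℂ) ((0 : ℤ) : ℂ) ((0 : ℤ) : ℂ) = p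
    apply c3_ext <;> simp
  mul_smul g h p := by
    show shear ((g * h).a : ℂ) p + vec ((g * h).a : ℂ) ((g * h).b : ℂ) ((g * h).c : ℂ) =
      shear (g.a : ℂ) (shear (h.a : ℂ) p + vec (h.a : ℂ) (h.b : ℂ) (h.c : ℂ)) +
        vec (g.a : ℂ) (g.b : ℂ) (g.c : ℂ)
    apply c3_ext
    · simp; ring
    · simp; ring
    · simp; ring

lemma smul_def (g : Hz) (p : C3) : g • p = shear g.a p + tv g := rfl

@[simp] lemma xL_smul (g : Hz) (p : C3) : xL (g • p) = xL p + g.a := by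
  rw [smul_def, map_add, xL_shear]; rfl
@[simp] lemma yL_smul (g : Hz) (p : C3) : yL (g • p) = yL p + g.b := by
  rw [smul_def, map_add, yL_shear]; rfl
@[simp] lemma zL_smul (g : Hz) (p : C3) : zL (g • p) = zL p + g.a * yL p + g.c := by
  rw [smul_def, map_add, zL_shear]; rfl

lemma contDiff_smul (g : Hz) : ContDiff ℂ ω (fun p : C3 => g • p) :=
  (shear g.a).contDiff.add contDiff_const

lemma contDiff_smul_real (g : Hz) : ContDiff ℝ ∞ (fun p : C3 => g • p) :=
  ((shear g.a).restrictScalars ℝ).contDiff.add contDiff_const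

lemma hasFDerivAt_smul (g : Hz) (p : C3) :
    HasFDerivAt (fun p : C3 => g • p) ((shear g.a).restrictScalars ℝ) p :=
  (((shear g.a).restrictScalars ℝ).hasFDerivAt).add_const _

instance : ContinuousConstSMul Hz C3 := ⟨fun g => (contDiff_smul g).continuous⟩

/-- the action is free -/
lemma free (g : Hz) (p : C3) (h : g • p = p) : g = 1 := by
  have h1 := congrArg xL h
  have h2 := congrArg yL h
  have h3 := congrArg zL h
  rw [xL_smul, add_eq_left] at h1
  rw [yL_smul, add_eq_left] at h2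
  have ha : g.a = 0 := by exact_mod_cast h1
  have hb : g.b = 0 := by exact_mod_cast h2
  rw [zL_smul, ha, Int.cast_zero, zero_mul, add_zero, add_eq_left] at h3
  have hc : g.c = 0 := by exact_mod_cast h3
  ext <;> assumption

instance : IsCancelSMul Hz C3 := isCancelSMul_iff_eq_one_of_smul_eq.2 free

lemma finite_box (N : ℤ) : {g : Hz | |g.a| ≤ N ∧ |g.b| ≤ N ∧ |g.c| ≤ N}.Finite := by
  have h : ((Icc (-N) N) ×ˢ ((Icc (-N) N) ×ˢ (Icc (-N) N)) : Set (ℤ × ℤ × ℤ)).Finite :=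
    (finite_Icc _ _).prod ((finite_Icc _ _).prod (finite_Icc _ _))
  refine (h.image fun t => (⟨t.1, t.2.1, t.2.2⟩ : Hz)).subset ?_
  rintro g ⟨h1, h2, h3⟩
  exact ⟨(g.a, g.b, g.c), ⟨abs_le.1 h1, abs_le.1 h2, abs_le.1 h3⟩, rfl⟩

instance : ProperlyDiscontinuousSMul Hz C3 := by
  constructor
  intro K L hK hL
  obtain ⟨r1, hr1⟩ := hK.isBounded.exists_norm_le
  obtain ⟨r2, hr2⟩ := hL.isBounded.exists_norm_le
  set r : ℝ := max (max r1 r2) 0 with hr
  have hr0 : 0 ≤ r := le_max_right _ _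
  obtain ⟨N, hN⟩ := exists_int_gt (2 * r + 2 * r * r)
  refine (finite_box N).subset ?_
  rintro g ⟨q, ⟨p, hp, rfl⟩, hq⟩
  have hp' : ‖p‖ ≤ r := (hr1 p hp).trans ((le_max_left _ _).trans (le_max_left _ _))
  have hq' : ‖g • p‖ ≤ r := (hr2 _ hq).trans ((le_max_right _ _).trans (le_max_left _ _))
  have e1 : ‖((g.a : ℤ) : ℂ)‖ ≤ 2 * r := by
    have : ((g.a : ℤ) : ℂ) = xL (g • p) - xL p := by rw [xL_smul]; ring
    rw [this]
    calc _ ≤ ‖xL (g • p)‖ + ‖xL p‖ := norm_sub_le _ _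
      _ ≤ r + r := add_le_add ((norm_xL_le _).trans hq') ((norm_xL_le _).trans hp')
      _ = 2 * r := by ring
  have e2 : ‖((g.b : ℤ) : ℂ)‖ ≤ 2 * r := by
    have : ((g.b : ℤ) : ℂ) = yL (g • p) - yL p := by rw [yL_smul]; ring
    rw [this]
    calc _ ≤ ‖yL (g • p)‖ + ‖yL p‖ := norm_sub_le _ _
      _ ≤ r + r := add_le_add ((norm_yL_le _).trans hq') ((norm_yL_le _).trans hp')
      _ = 2 * r := by ring
  have e3 : ‖((g.c : ℤ) : ℂ)‖ ≤ 2 * r + 2 * r * r := by
    have : ((g.c : ℤ) : ℂ) = zL (g • p) - zL p - (g.a : ℂ) * yL p := by rw [zL_smul]; ring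
    rw [this]
    calc _ ≤ ‖zL (g • p) - zL p‖ + ‖(g.a : ℂ) * yL p‖ := norm_sub_le _ _
      _ ≤ (r + r) + 2 * r * r := by
        apply add_le_add
        · exact (norm_sub_le _ _).trans
            (add_le_add ((norm_zL_le _).trans hq') ((norm_zL_le _).trans hp'))
        · rw [norm_mul]
          exact mul_le_mul e1 ((norm_yL_le _).trans hp') (norm_nonneg _) (by positivity)
      _ = 2 * r + 2 * r * r := by ring
  have e0 : 0 ≤ 2 * r * r := by positivity
  rw [Complex.norm_intCast] at e1 e2 e3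
  refine ⟨?_, ?_, ?_⟩
  · have : ((|g.a| : ℤ) : ℝ) < N := by rw [Int.cast_abs]; linarith
    exact_mod_cast this.le
  · have : ((|g.b| : ℤ) : ℝ) < N := by rw [Int.cast_abs]; linarith
    exact_mod_cast this.le
  · have : ((|g.c| : ℤ) : ℝ) < N := by rw [Int.cast_abs]; linarith
    exact_mod_cast this.le

end Hz

instance : ContractibleSpace C3 := inferInstanceAs (ContractibleSpace (ℂ × ℂ × ℂ))

end Pool.Agent.K4H24.EK
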